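import Pool.Agent.X33.DissR

set_option autoImplicit false

namespace Pool.Agent.Results.MP_2d6ea7_co.ExactSmallValues

open Pool.Agent.X33.DS

/-- `f n` is the largest `k` such that every set of `n` real numbers has a dissociated subset with
at least `k` elements. -/
noncomputable def f (n : ℕ) : ℕ :=
  sSup {k : ℕ | ∀ A : Finset ℝ, A.card = n → ∃ B ⊆ A, k ≤ B.card ∧ AddDissociated (B : Set ℝ)}

theorem le_f {n k : ℕ}
    (h : ∀ A : Finset ℝ, A.card = n → ∃ B ⊆ A, k ≤ B.card ∧ AddDissociated (B : Set ℝ)) :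
    k ≤ f n := by
  have hmem : k ∈ {k : ℕ | ∀ A : Finset ℝ, A.card = n →
      ∃ B ⊆ A, k ≤ B.card ∧ AddDissociated (B : Set ℝ)} := h
  refine le_csSup ⟨n, ?_⟩ hmem
  intro m hm
  obtain ⟨A, hA⟩ := Infinite.exists_subset_card_eq ℝ n
  obtain ⟨B, hB, hmB, _⟩ := hm A hA
  exact hmB.trans ((Finset.card_le_card hB).trans hA.le)

theorem f_le {n k : ℕ} (A : Finset ℝ) (hA : A.card = n)
    (h : ∀ B ⊆ A, AddDissociated (B : Set ℝ) → B.card ≤ k) : f n ≤ k := by
  apply csSup_le (⟨0, fun A _ => ⟨∅, by simp, by simp, by simp⟩⟩ : Set.Nonempty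
    {k : ℕ | ∀ A : Finset ℝ, A.card = n → ∃ B ⊆ A, k ≤ B.card ∧ AddDissociated (B : Set ℝ)})
  intro m hm
  obtain ⟨B, hB, hmB, hBd⟩ := hm A hA
  exact hmB.trans (h B hB hBd)

theorem f_eq (q k h n : ℕ) (hP : P q k) (hQ : Q h k) (h1 : 2 * q ≤ n) (h2 : n ≤ 2 * h + 1) :
    f n = k := by
  apply le_antisymm
  · obtain ⟨A, hA, hB⟩ := upperR h k n hQ h2
    exact f_le A hA hB
  · exact le_f fun A hA => lowerR q k hP A (by omega)

/-- `f n = 1, 2, 3, 4` for `n` in `[2,3], [4,7], [8,13], [14,25]`; in particular Erdős' bound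
`f n ≥ ⌊log₂ n⌋` holds for all `n < 32` (it was known here for `n < 16`), and it is not sharp at
`n = 14, 15`. -/
theorem result :
    (∀ n : ℕ, 2 ≤ n → n ≤ 25 →
      f n = if n ≤ 3 then 1 else if n ≤ 7 then 2 else if n ≤ 13 then 3 else 4) ∧
    (∀ n : ℕ, n < 32 → Nat.log 2 n ≤ f n) := by
  have h3 : ∀ n : ℕ, 2 ≤ n → n ≤ 25 →
      f n = if n ≤ 3 then 1 else if n ≤ 7 then 2 else if n ≤ 13 then 3 else 4 := by
    intro n hm1 hm2
    by_cases h1 : n ≤ 3
    · rw [if_pos h1]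
      exact f_eq 1 1 1 n P11 Q11 (by omega) (by omega)
    rw [if_neg h1]
    by_cases h2 : n ≤ 7
    · rw [if_pos h2]
      exact f_eq 2 2 3 n P22 Q32 (by omega) (by omega)
    rw [if_neg h2]
    by_cases h3 : n ≤ 13
    · rw [if_pos h3]
      exact f_eq 4 3 6 n P43 Q63 (by omega) (by omega)
    rw [if_neg h3]
    exact f_eq 7 4 12 n P74 Q124 (by omega) (by omega)
  refine ⟨h3, ?_⟩
  intro n hn
  rcases Nat.lt_or_ge n 2 with h | h
  · have : Nat.log 2 n = 0 := Nat.log_of_lt h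
    omega
  rcases Nat.lt_or_ge n 14 with h' | h'
  · rw [h3 n h (by omega)]
    split_ifs with a b c
    · have h5 : Nat.log 2 n < 2 := Nat.log_lt_of_lt_pow (by omega) (by omega)
      omega
    · have h5 : Nat.log 2 n < 3 := Nat.log_lt_of_lt_pow (by omega) (by omega)
      omega
    · have h5 : Nat.log 2 n < 4 := Nat.log_lt_of_lt_pow (by omega) (by omega)
      omega
    · omega
  · have h4 : 4 ≤ f n := le_f fun A hA => lowerR 7 4 P74 A (by omega)
    have h5 : Nat.log 2 n < 5 := Nat.log_lt_of_lt_pow (by omega) (by omega)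
    omega

end Pool.Agent.Results.MP_2d6ea7_co.ExactSmallValues
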